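import Pool.Agent.K1H82.KQ.Defs

/-!
# Quotients of abelian varieties by finite groups: the definitions used in the statement
-/

set_option autoImplicit false

open MvPolynomial Pool.Agent.TH954.X Pool.Agent.K1H82.KM

namespace Pool.Agent.K1H82.KQ

/-- the absolute Galois group -/
abbrev GalK (K : Type) [Field K] : Type := AlgebraicClosure K ≃ₐ[K] AlgebraicClosure K

noncomputable instance (K : Type) [Field K] : Group (GalK K) := AlgEquiv.aut

/-- the points over the algebraic closure -/
abbrev PtB {K : Type} [Field K] {n : ℕ} (A : AbVar K n) : Type := A.Pt (AlgebraicClosure K)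

noncomputable instance {K : Type} [Field K] {n : ℕ} (A : AbVar K n) : AddCommGroup (PtB A) :=
  A.grp (AlgebraicClosure K)

/-- the conjugate of a point -/
noncomputable def cjg {K : Type} [Field K] {n : ℕ} (A : AbVar K n) (σ : GalK K) (P : PtB A) :
    PtB A := mapPt A σ.toAlgHom P

/-- a finite dimensional semisimple algebra over `ℚ` with an order -/
structure SAlg where
  S : Type
  [ring : Ring S]
  [alg : Algebra ℚ S]
  [fin : Module.Finite ℚ S]
  [semi : IsSemisimpleRing S]
  R : Subring S
  mult : ∀ s : S, ∃ m : ℕ, 0 < m ∧ m • s ∈ R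

attribute [instance] SAlg.ring SAlg.alg SAlg.fin SAlg.semi

/-- the order -/
abbrev SAlg.Rt (B : SAlg) : Type := B.R

instance (B : SAlg) : Ring B.Rt := B.R.toRing

/-- the inclusion of the order in the algebra -/
def SAlg.co (B : SAlg) (α : B.Rt) : B.S := α.1

/-- The order of `B` acts on the group of the points of `A` over the algebraic closure, and the
Galois group acts on the algebra through a finite quotient, compatibly. -/
structure ActOn {K : Type} [Field K] {n : ℕ} (A : AbVar K n) (B : SAlg) where
  act : B.Rt → PtB A → PtB A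
  act_one : ∀ P, act 1 P = P
  act_mul : ∀ α β P, act (α * β) P = act α (act β P)
  act_add : ∀ α β P, act (α + β) P = act α P + act β P
  act_hom : ∀ α P Q, act α (P + Q) = act α P + act α Q
  gal : GalK K → B.S → B.S
  gal_one : ∀ s, gal 1 s = s
  gal_comp : ∀ σ τ s, gal (σ * τ) s = gal σ (gal τ s)
  gal_add : ∀ σ s t, gal σ (s + t) = gal σ s + gal σ t
  gal_mul : ∀ σ s t, gal σ (s * t) = gal σ s * gal σ t
  gal_fin : (Set.range gal).Finite
  gal_act : ∀ σ α, ∃ β, B.co β = gal σ (B.co α) ∧ ∀ P, cjg A σ (act α P) = act β (cjg A σ P)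

/-- closed in the Zariski topology -/
def ZClosed {K : Type} [Field K] {n : ℕ} (A : AbVar K n) (H : AddSubgroup (PtB A)) : Prop :=
  ∃ Z : Set (MvPolynomial (Fin n) (AlgebraicClosure K)), (∀ g ∈ Z, ∃ d, g.IsHomogeneous d) ∧
    ∀ P, P ∈ H ↔ ∀ g ∈ Z, eval P.1 g = 0

/-- The endomorphism algebra of the abelian variety `A` over the algebraic closure: a semisimple
algebra with an order which acts on the group of the points, and on which the Galois group acts
through a finite quotient. The torsion subgroups are finite, and every Zariski closed subgroup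
agrees, up to a positive integer, with the kernel of an endomorphism (Poincaré reducibility). -/
structure EndOf {K : Type} [Field K] {n : ℕ} (A : AbVar K n) where
  B : SAlg
  on : ActOn A B
  tor : ∀ m : ℕ, 0 < m → {P : PtB A | m • P = 0}.Finite
  poinc : ∀ H, ZClosed A H → ∃ (β : B.Rt) (m : ℕ), 0 < m ∧ (∀ P ∈ H, m • on.act β P = 0) ∧
    ∀ P, on.act β P = 0 → m • P ∈ H

/-- `x` are the coordinates of a point of `X` over the algebraic closure -/
def OnX {K : Type} [Field K] {N : ℕ} (eqX : Set (MvPolynomial (Fin N) K))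
    (x : Fin N → AlgebraicClosure K) : Prop := x ≠ 0 ∧ ∀ g ∈ eqX, aeval x g = 0

/-- `x` are coordinates of the image of `P` under the map given by the tuples of forms in `Fam` -/
def Img {K : Type} [Field K] {n N : ℕ} {A : AbVar K n}
    (Fam : Finset (Fin N → MvPolynomial (Fin n) K)) (P : PtB A)
    (x : Fin N → AlgebraicClosure K) : Prop := Val1 Fam P.1 x

/-- A projective variety `X ⊆ ℙ ^ (N - 1)` over `K` (homogeneous equations `eqX`) and a map over `K`
given by the tuples of forms in `Fam` from `A` onto `X`. -/
structure PMap {K : Type} [Field K] {n : ℕ} (A : AbVar K n) (N : ℕ) where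
  eqX : Set (MvPolynomial (Fin N) K)
  homX : ∀ g ∈ eqX, ∃ d, g.IsHomogeneous d
  Fam : Finset (Fin N → MvPolynomial (Fin n) K)
  d : ℕ
  Fam_hom : ∀ C ∈ Fam, ∀ c, (C c).IsHomogeneous d
  total : ∀ P : PtB A, ∃ x, OnX eqX x ∧ Img Fam P x
  surj : ∀ x, OnX eqX x → ∃ P : PtB A, Img Fam P x

/-- The group `G` acts on `A` over the algebraic closure through the automorphisms
`P ↦ α_g (P) + t_g`, and its image is stable under the Galois group. -/
structure GAct {K : Type} [Field K] {n : ℕ} {A : AbVar K n} (E : EndOf A) (G : Type)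
    [Group G] where
  lin : G → E.B.Rt
  lin_one : lin 1 = 1
  lin_mul : ∀ g h, lin (g * h) = lin g * lin h
  tr : G → PtB A
  tr_mul : ∀ g h, tr (g * h) = E.on.act (lin g) (tr h) + tr g
  galG : GalK K → G → G
  galG_one : ∀ g, galG 1 g = g
  galG_comp : ∀ σ τ g, galG (σ * τ) g = galG σ (galG τ g)
  galG_mul : ∀ σ g h, galG σ (g * h) = galG σ g * galG σ h
  gal_lin : ∀ σ g, E.B.co (lin (galG σ g)) = E.on.gal σ (E.B.co (lin g))
  gal_tr : ∀ σ g, tr (galG σ g) = cjg A σ (tr g)

/-- The fibres of the map from `A` to `X` over the points over the algebraic closure are the orbits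
of `G`: the variety `X` is the quotient of `A` by `G`. -/
def IsQuot {K : Type} [Field K] {n N : ℕ} {A : AbVar K n} {E : EndOf A} {G : Type} [Group G]
    (X : PMap A N) (T : GAct E G) : Prop :=
  ∀ (P Q : PtB A) (x : Fin N → AlgebraicClosure K), Img X.Fam P x →
    (Img X.Fam Q x ↔ ∃ g : G, Q = E.on.act (T.lin g) P + T.tr g)

section conv

variable {K : Type} [Field K] {n N : ℕ} {A : AbVar K n}

/-- the endomorphism given by an element of the order -/
noncomputable def actE {B : SAlg} (T : ActOn A B) : B.R →+* AddMonoid.End (A.Pt (AlgebraicClosure K)) where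
  toFun α := AddMonoidHom.mk' (T.act α) (T.act_hom α)
  map_one' := by
    ext P : 1
    exact T.act_one P
  map_mul' α β := by
    ext P : 1
    exact T.act_mul α β P
  map_zero' := by
    ext P : 1
    change T.act 0 P = 0
    have h := T.act_add 0 0 P
    rw [add_zero] at h
    exact left_eq_add.1 h
  map_add' α β := by
    ext P : 1
    exact T.act_add α β P

/-- the action of the Galois group on the algebra -/
noncomputable def galE {B : SAlg} (T : ActOn A B) :
    (AlgebraicClosure K ≃ₐ[K] AlgebraicClosure K) →* RingAut B.S where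
  toFun σ :=
    { toFun := T.gal σ
      invFun := T.gal σ⁻¹
      left_inv := fun s => by
        rw [← T.gal_comp, inv_mul_cancel, T.gal_one]
      right_inv := fun s => by
        rw [← T.gal_comp, mul_inv_cancel, T.gal_one]
      map_mul' := T.gal_mul σ
      map_add' := T.gal_add σ }
  map_one' := by
    ext s
    exact T.gal_one s
  map_mul' σ τ := by
    ext s
    exact T.gal_comp σ τ s

lemma galE_apply {B : SAlg} (T : ActOn A B) (σ : GalK K) (s : B.S) :
    galE T σ s = T.gal σ s := rfl

lemma galE_fin {B : SAlg} (T : ActOn A B) : (Set.range (galE T)).Finite := by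
  refine Set.Finite.of_finite_image (f := fun (τ : RingAut B.S) (s : B.S) => τ s) ?_ ?_
  · refine T.gal_fin.subset ?_
    rintro _ ⟨_, ⟨σ, rfl⟩, rfl⟩
    exact ⟨σ, rfl⟩
  · intro τ _ τ' _ h
    exact RingEquiv.ext (fun s => congrFun h s)

/-- the endomorphism algebra in the other form -/
noncomputable def toEnd (E : EndOf A) : EndAlg A where
  S := E.B.S
  R := E.B.R
  mult := E.B.mult
  act := actE E.on
  gal := galE E.on
  gal_fin := galE_fin E.on
  gal_mem σ s hs := by
    obtain ⟨β, hβ, -⟩ := E.on.gal_act σ ⟨s, hs⟩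
    rw [galE_apply]
    have h1 : E.on.gal σ s = β.1 := hβ.symm
    rw [h1]
    exact β.2
  gal_act σ α P := by
    obtain ⟨β, hβ, h⟩ := E.on.gal_act σ α
    have h1 : (⟨galE E.on σ α, by
        rw [galE_apply]
        have h1 : E.on.gal σ α = β.1 := hβ.symm
        rw [h1]
        exact β.2⟩ : E.B.R) = β := Subtype.ext hβ.symm
    rw [h1]
    exact h P
  tor := E.tor
  poinc Z hZ H hH := E.poinc H ⟨Z, hZ, hH⟩

/-- the quotient in the other form -/
noncomputable def toQuot {E : EndOf A} {G : Type} [Group G] (X : PMap A N) (T : GAct E G)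
    (h : IsQuot X T) : Quot (toEnd E) N G where
  eqX := X.eqX
  homX := X.homX
  Fam := X.Fam
  d := X.d
  Fam_hom := X.Fam_hom
  lin := { toFun := T.lin, map_one' := T.lin_one, map_mul' := T.lin_mul }
  tr := T.tr
  tr_mul := T.tr_mul
  galG :=
    { toFun := fun σ =>
        { toFun := T.galG σ
          invFun := T.galG σ⁻¹
          left_inv := fun g => by rw [← T.galG_comp, inv_mul_cancel, T.galG_one]
          right_inv := fun g => by rw [← T.galG_comp, mul_inv_cancel, T.galG_one]
          map_mul' := T.galG_mul σ }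
      map_one' := by
        ext g
        exact T.galG_one g
      map_mul' := fun σ τ => by
        ext g
        exact T.galG_comp σ τ g }
  gal_lin := T.gal_lin
  gal_tr := T.gal_tr
  total P := by
    obtain ⟨x, hx, hP⟩ := X.total P
    exact ⟨x, hx.1, hx.2, hP⟩
  surj x hx hx' := X.surj x ⟨hx, hx'⟩
  fib := h

end conv

end Pool.Agent.K1H82.KQ
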