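import Pool.Agent.K1H82.KQ.Loc

/-!
# Finiteness of the set of the local ideals
-/

set_option autoImplicit false
set_option linter.unusedSectionVars false

open MvPolynomial Pool.Agent.TH954.X Pool.Agent.K1H82.KM Filter Topology

namespace Pool.Agent.K1H82.KQ

variable {K : Type} [Field K] {n N : ℕ} {A : AbVar K n} {E : EndAlg A} {G : Type} [Group G]

/-- the endomorphism chosen for a left ideal -/
noncomputable def eI (E : EndAlg A) (I : Ideal E.S) : E.R := (exists_e E I).choose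

/-- the integer chosen for a left ideal -/
noncomputable def mI (E : EndAlg A) (I : Ideal E.S) : ℕ := (exists_e E I).choose_spec.choose

lemma mI_pos (I : Ideal E.S) : 0 < mI E I := (exists_e E I).choose_spec.choose_spec.1

lemma mI_mem (I : Ideal E.S) : (((mI E I : E.R) - eI E I : E.R) : E.S) ∈ I :=
  (exists_e E I).choose_spec.choose_spec.2.1

lemma mul_eI (I : Ideal E.S) : ∀ β ∈ I, β * (eI E I : E.S) = 0 :=
  (exists_e E I).choose_spec.choose_spec.2.2

lemma ZIe_eq (X : Quot E N G) {P P' Q : A.Pt (AlgebraicClosure K)} {e : E.R}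
    (h : P' = P + E.act e Q) : ZIe X P' e = ZIe X P e := by
  ext f
  constructor
  · intro hf Q0 z hz
    refine hf (Q0 - Q) z ?_
    have : P' + E.act e (Q0 - Q) = P + E.act e Q0 := by
      rw [h, map_sub]
      abel
    rw [this]
    exact hz
  · intro hf Q0 z hz
    refine hf (Q + Q0) z ?_
    have : P + E.act e (Q + Q0) = P' + E.act e Q0 := by
      rw [h, map_add]
      abel
    rw [this]
    exact hz

section fin

variable [Fintype G]

lemma fin_coset (X : Quot E N G) (e : E.R) {m : ℕ} (hm : 0 < m)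
    (T : A.Pt (AlgebraicClosure K)) :
    {I : Set (MvPolynomial (Fin N) K) | ∃ P : A.Pt (AlgebraicClosure K),
      E.act ((m : E.R) - e) (Fintype.card G • P - cen X) = T ∧ I = ZIe X P e}.Finite := by
  by_cases hne : ∃ P0 : A.Pt (AlgebraicClosure K),
      E.act ((m : E.R) - e) (Fintype.card G • P0 - cen X) = T
  · obtain ⟨P0, hP0⟩ := hne
    have hM : 0 < m * Fintype.card G := Nat.mul_pos hm Fintype.card_pos
    refine ((E.tor _ hM).image (fun w => ZIe X (P0 + w) e)).subset ?_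
    rintro _ ⟨P, hP, rfl⟩
    obtain ⟨Q, hQ⟩ := A.div (AlgebraicClosure K) (Fintype.card G • (P - P0))
      (m * Fintype.card G) hM
    have hQ' : (m * Fintype.card G) • Q = Fintype.card G • (P - P0) := hQ
    have h1 : E.act ((m : E.R) - e) (Fintype.card G • (P - P0)) = 0 := by
      have h2 : Fintype.card G • (P - P0) = (Fintype.card G • P - cen X) -
          (Fintype.card G • P0 - cen X) := by
        rw [smul_sub]
        abel
      rw [h2, map_sub, hP, hP0, sub_self]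
    rw [act_sub, act_natCast, sub_eq_zero, smul_smul, ← hQ', map_nsmul] at h1
    refine ⟨P - P0 - E.act e Q, ?_, ?_⟩
    · change (m * Fintype.card G) • (P - P0 - E.act e Q) = 0
      rw [smul_sub, h1, sub_self]
    · refine (ZIe_eq X (Q := Q) ?_).symm
      abel
  · refine Set.finite_empty.subset ?_
    rintro _ ⟨P, hP, -⟩
    exact absurd ⟨P, hP⟩ hne

/-- the ideals which occur -/
def Typ1 (X : Quot E N G) : Set (Set (MvPolynomial (Fin N) K)) :=
  {I | ∃ (P : A.Pt (AlgebraicClosure K)) (y : Fin N → K), Val1 X.Fam P.1 (up y) ∧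
    I = ZIe X P (eI E (an X P))}

theorem typ1_fin [NumberField K] (X : Quot E N G) : (Typ1 X).Finite := by
  classical
  have hT := torB A (E.gal_fin.toFinset.card * Fintype.card G)
  refine (((an_fin X)).biUnion (t := fun I0 => ⋃ T ∈ {T : A.Pt (AlgebraicClosure K) |
      (∃ k : ℕ, 0 < k ∧ k • T = 0) ∧ ∃ s : Finset (A.Pt (AlgebraicClosure K)),
        s.card ≤ E.gal_fin.toFinset.card * Fintype.card G ∧ ∀ σ, sg A σ T ∈ s},
    {I : Set (MvPolynomial (Fin N) K) | ∃ P : A.Pt (AlgebraicClosure K),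
      E.act ((mI E I0 : E.R) - eI E I0) (Fintype.card G • P - cen X) = T ∧
        I = ZIe X P (eI E I0)}) (fun I0 _ => hT.biUnion (fun T _ =>
      fin_coset X (eI E I0) (mI_pos I0) T))).subset ?_
  rintro _ ⟨P, y, hy, rfl⟩
  set a : E.R := (mI E (an X P) : E.R) - eI E (an X P) with ha
  refine Set.mem_biUnion (x := an X P) ⟨P, rfl⟩ (Set.mem_biUnion
    (x := E.act a (Fintype.card G • P - cen X)) ?_ ⟨P, rfl, rfl⟩)
  refine ⟨(mem_an X P a).1 (mI_mem (an X P)) _ (nP_mem X P), ?_⟩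
  set F : RingAut E.S × G → A.Pt (AlgebraicClosure K) := fun p =>
    if h : p.1 a ∈ E.R then E.act ⟨p.1 a, h⟩ (Fintype.card G • ap X p.2 P - cen X) else 0 with hF
  refine ⟨(E.gal_fin.toFinset ×ˢ Finset.univ).image F, ?_, fun σ => ?_⟩
  · refine Finset.card_image_le.trans ?_
    rw [Finset.card_product, Finset.card_univ]
  · obtain ⟨g, hg⟩ := conj_ap X hy σ
    rw [Finset.mem_image]
    refine ⟨(E.gal σ, g), ?_, ?_⟩
    · rw [Finset.mem_product]
      exact ⟨E.gal_fin.mem_toFinset.2 ⟨σ, rfl⟩, Finset.mem_univ _⟩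
    · have h1 : (E.gal σ) (a : E.S) ∈ E.R := E.gal_mem σ a a.2
      simp only [hF]
      rw [dif_pos h1, sg_act, map_sub (sg A σ), map_nsmul, sg_cen, hg]

theorem main1 [NumberField K] (X : Quot E N G) {L : Type}
    [NontriviallyNormedField L] [CompleteSpace L] (σ : K →+* L) (hσ : DenseRange σ) :
    (LocalIdeals X.eqX σ).Finite := by
  refine (((typ1_fin X).powerset).image (fun S => {f | ∀ I ∈ S, f ∈ I})).subset ?_
  rintro _ ⟨x, hx0, hx, rfl⟩
  -- the types which occur in every neighbourhood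
  set S : Set (Set (MvPolynomial (Fin N) K)) := {I | I ∈ Typ1 X ∧ ∀ U ∈ 𝓝 x,
    ∃ (P : A.Pt (AlgebraicClosure K)) (y : Fin N → K), Val1 X.Fam P.1 (up y) ∧
      (∃ c : L, c ≠ 0 ∧ (fun i => c * σ (y i)) ∈ U) ∧ I = ZIe X P (eI E (an X P))} with hS
  refine ⟨S, fun I hI => hI.1, ?_⟩
  ext f
  constructor
  · intro hf
    have hU : ∀ I ∈ Typ1 X, ∃ U ∈ 𝓝 x, I ∉ S →
        ¬ ∃ (P : A.Pt (AlgebraicClosure K)) (y : Fin N → K), Val1 X.Fam P.1 (up y) ∧
          (∃ c : L, c ≠ 0 ∧ (fun i => c * σ (y i)) ∈ U) ∧ I = ZIe X P (eI E (an X P)) := by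
      intro I hI
      by_cases hIS : I ∈ S
      · exact ⟨Set.univ, univ_mem, fun h => absurd hIS h⟩
      · have h1 : ¬ ∀ U ∈ 𝓝 x, ∃ (P : A.Pt (AlgebraicClosure K)) (y : Fin N → K),
            Val1 X.Fam P.1 (up y) ∧ (∃ c : L, c ≠ 0 ∧ (fun i => c * σ (y i)) ∈ U) ∧
              I = ZIe X P (eI E (an X P)) := fun h => hIS ⟨hI, h⟩
        simp only [not_forall] at h1
        obtain ⟨U, hU, hU'⟩ := h1
        exact ⟨U, hU, fun _ => hU'⟩
    choose! U hU hUI using hU
    refine ⟨⋂ I ∈ Typ1 X, U I, (Filter.biInter_mem (typ1_fin X)).2 hU, ?_⟩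
    intro y hy0 hye hyU a
    obtain ⟨c, hc, hcU⟩ := hyU
    have hup0 : up y ≠ 0 := by
      intro h0
      apply hy0
      funext i
      have := congrFun h0 i
      exact (map_eq_zero_iff _ (algebraMap K (AlgebraicClosure K)).injective).1 this
    obtain ⟨P, hP⟩ := X.surj (up y) hup0 (fun g hg => (eval_up_iff y g).2 (hye g hg))
    have hT : ZIe X P (eI E (an X P)) ∈ Typ1 X := ⟨P, y, hP, rfl⟩
    have hIS : ZIe X P (eI E (an X P)) ∈ S := by
      by_contra hIS
      exact hUI _ hT hIS ⟨P, y, hP, ⟨c, hc, Set.mem_iInter₂.1 hcU _ hT⟩, rfl⟩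
    have h2 := hf _ hIS 0 (up y) (by rw [map_zero, add_zero]; exact hP)
      (algebraMap K (AlgebraicClosure K) a)
    have h3 : algebraMap K (AlgebraicClosure K) a • up y = up (a • y) := by
      funext i
      change _ * algebraMap K (AlgebraicClosure K) (y i) =
        algebraMap K (AlgebraicClosure K) (a * y i)
      rw [map_mul]
    rw [h3] at h2
    exact (eval_up_iff _ _).1 h2
  · rintro ⟨U, hU, hf⟩ I ⟨hI, hI'⟩
    obtain ⟨V, hVU, hV, hxV⟩ := mem_nhds_iff.1 hU
    have hV0 : IsOpen (V ∩ {v | v ≠ 0}) := hV.inter isOpen_ne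
    obtain ⟨P, y, hy, ⟨c, hc, hcV⟩, rfl⟩ := hI' (V ∩ {v | v ≠ 0})
      (hV0.mem_nhds ⟨hxV, hx0⟩)
    exact loc1 X σ hσ f hV0 (fun h => h.2 rfl)
      (fun y hy0 hye ⟨c, hc, hcU⟩ a => hf y hy0 hye ⟨c, hc, hVU hcU.1⟩ a) P y hy hcV
      (eI E (an X P)) (mul_eI _)

end fin

end Pool.Agent.K1H82.KQ
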