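import Pool.Agent.K1H82.KQ.Rat

/-!
# The closure of the small points of a group of points
-/

set_option autoImplicit false
set_option linter.unusedSectionVars false

open MvPolynomial Pool.Agent.TH954.X Pool.Agent.K1H82.KM Filter Topology

namespace Pool.Agent.K1H82.KQ

section closure

variable {K : Type} [Field K] {n : ℕ} (A : AbVar K n)

/-- a basis of neighbourhoods of zero in a group of points -/
structure IsBasP (𝓤 : Set (Set (A.Pt (AlgebraicClosure K)))) : Prop where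
  ne : 𝓤.Nonempty
  zero : ∀ U ∈ 𝓤, (0 : A.Pt (AlgebraicClosure K)) ∈ U
  sub : ∀ U ∈ 𝓤, ∃ U' ∈ 𝓤, ∀ R ∈ U', ∀ R' ∈ U', R - R' ∈ U
  inter : ∀ U ∈ 𝓤, ∀ U' ∈ 𝓤, ∃ U'' ∈ 𝓤, U'' ⊆ U ∩ U'

/-- the ideal of the polynomials vanishing on the cones over the points in `U` -/
def vanP (U : Set (A.Pt (AlgebraicClosure K))) :
    Ideal (MvPolynomial (Fin n) (AlgebraicClosure K)) where
  carrier := {f | ∀ R ∈ U, ∀ a : AlgebraicClosure K, eval (a • R.1) f = 0}
  add_mem' := by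
    intro f g hf hg m hm a
    rw [map_add, hf m hm a, hg m hm a, add_zero]
  zero_mem' := by
    intro m _ a
    rw [map_zero]
  smul_mem' := by
    intro c f hf m hm a
    rw [smul_eq_mul, map_mul, hf m hm a, mul_zero]

lemma mem_vanP (U : Set (A.Pt (AlgebraicClosure K)))
    {f : MvPolynomial (Fin n) (AlgebraicClosure K)} {δ : ℕ} (hf : f.IsHomogeneous δ) :
    f ∈ vanP A U ↔ ∀ R ∈ U, eval R.1 f = 0 := by
  constructor
  · intro h m hm
    have := h m hm 1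
    rwa [one_smul] at this
  · intro h m hm a
    rw [eval_smul_hom hf, h m hm, mul_zero]

lemma vanP_mono {U U' : Set (A.Pt (AlgebraicClosure K))} (h : U ⊆ U') :
    vanP A U' ≤ vanP A U := fun _ hf m hm a => hf m (h hm) a

variable {A} in
/-- The closure of the small points is a closed subgroup. -/
theorem closureP {𝓤 : Set (Set (A.Pt (AlgebraicClosure K)))} (h𝓤 : IsBasP A 𝓤) :
    ∃ (Z : Set (MvPolynomial (Fin n) (AlgebraicClosure K)))
      (H : AddSubgroup (A.Pt (AlgebraicClosure K))), (∀ g ∈ Z, ∃ d, g.IsHomogeneous d) ∧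
      (∀ P, P ∈ H ↔ ∀ g ∈ Z, eval P.1 g = 0) ∧ (∃ U ∈ 𝓤, U ⊆ H) ∧
      ∀ U ∈ 𝓤, ∀ g : MvPolynomial (Fin n) (AlgebraicClosure K), ∀ δ, g.IsHomogeneous δ →
        (∀ R ∈ U, eval R.1 g = 0) → ∀ Q ∈ H, eval Q.1 g = 0 := by
  obtain ⟨U0, hU0, hmax⟩ : ∃ U0 ∈ 𝓤, ∀ U ∈ 𝓤, vanP A U ≤ vanP A U0 := by
    have hne : {I | ∃ U ∈ 𝓤, I = vanP A U}.Nonempty := by
      obtain ⟨U, hU⟩ := h𝓤.ne
      exact ⟨_, U, hU, rfl⟩
    obtain ⟨I, ⟨U0, hU0, rfl⟩, hI⟩ := set_has_maximal_iff_noetherian.2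
      (inferInstance : IsNoetherian (MvPolynomial (Fin n) (AlgebraicClosure K))
        (MvPolynomial (Fin n) (AlgebraicClosure K))) _ hne
    refine ⟨U0, hU0, fun U hU => ?_⟩
    obtain ⟨U2, hU2, hU2'⟩ := h𝓤.inter U hU U0 hU0
    have h1 : vanP A U0 ≤ vanP A U2 := vanP_mono A (fun m hm => (hU2' hm).2)
    have h2 : vanP A U ≤ vanP A U2 := vanP_mono A (fun m hm => (hU2' hm).1)
    have h3 := hI (vanP A U2) ⟨U2, hU2, rfl⟩
    have h4 : vanP A U0 = vanP A U2 := by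
      by_contra hne
      exact h3 (lt_of_le_of_ne h1 hne)
    rw [h4]
    exact h2
  obtain ⟨U1, hU1, hsub⟩ := h𝓤.sub U0 hU0
  set S : Set (MvPolynomial (Fin n) (AlgebraicClosure K)) :=
    {f | (∃ d, f.IsHomogeneous d) ∧ f ∈ vanP A U0} with hS
  have step1 : ∀ m ∈ U1, ∀ Q : A.Pt (AlgebraicClosure K), (∀ f ∈ S, eval Q.1 f = 0) →
      ∀ f ∈ S, eval (Q - m).1 f = 0 := by
    rintro m hm Q hQ f ⟨⟨d, hd⟩, hf⟩
    refine zero_of_dif A hd (fun i => ?_)
    rw [← dif0_eval]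
    refine hQ _ ⟨⟨_, dif0_hom A hd _ i⟩, hmax U1 hU1 ?_⟩
    rw [mem_vanP A U1 (dif0_hom A hd _ i)]
    intro m' hm'
    rw [dif0_eval]
    exact dif_zero A hd ((mem_vanP A U0 hd).1 hf _ (hsub m' hm' m hm)) i
  have step2 : ∀ Q Q' : A.Pt (AlgebraicClosure K), (∀ f ∈ S, eval Q.1 f = 0) →
      (∀ f ∈ S, eval Q'.1 f = 0) → ∀ f ∈ S, eval (Q - Q').1 f = 0 := by
    rintro Q Q' hQ hQ' f ⟨⟨d, hd⟩, hf⟩
    refine zero_of_dif A hd (fun i => ?_)
    rw [← dif1_eval]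
    refine hQ' _ ⟨⟨_, dif1_hom A hd _ i⟩, hmax U1 hU1 ?_⟩
    rw [mem_vanP A U1 (dif1_hom A hd _ i)]
    intro m hm
    rw [dif1_eval]
    exact dif_zero A hd (step1 m hm Q hQ f ⟨⟨d, hd⟩, hf⟩) i
  have h0 : ∀ f ∈ S, eval (0 : A.Pt (AlgebraicClosure K)).1 f = 0 := by
    rintro f ⟨⟨d, hd⟩, hf⟩
    exact (mem_vanP A U0 hd).1 hf 0 (h𝓤.zero U0 hU0)
  let H : AddSubgroup (A.Pt (AlgebraicClosure K)) :=
    { carrier := {Q | ∀ f ∈ S, eval Q.1 f = 0}
      zero_mem' := h0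
      add_mem' := by
        intro Q Q' hQ hQ'
        have h1 := step2 0 Q' h0 hQ'
        have h2 := step2 Q (0 - Q') hQ h1
        rwa [zero_sub, sub_neg_eq_add] at h2
      neg_mem' := by
        intro Q hQ
        have h1 := step2 0 Q h0 hQ
        rwa [zero_sub] at h1 }
  refine ⟨S, H, fun g hg => hg.1, fun Q => Iff.rfl, ⟨U0, hU0, ?_⟩, ?_⟩
  · rintro R hR f ⟨⟨d, hd⟩, hf⟩
    exact (mem_vanP A U0 hd).1 hf R hR
  · intro U hU g δ hg hgU Q hQ
    exact hQ g ⟨⟨δ, hg⟩, hmax U hU ((mem_vanP A U hg).2 hgU)⟩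

variable {A} in
/-- The translated version. -/
theorem closureP_trans {𝓤 : Set (Set (A.Pt (AlgebraicClosure K)))} (h𝓤 : IsBasP A 𝓤)
    {H : AddSubgroup (A.Pt (AlgebraicClosure K))}
    (hH : ∀ U ∈ 𝓤, ∀ g : MvPolynomial (Fin n) (AlgebraicClosure K), ∀ δ, g.IsHomogeneous δ →
        (∀ R ∈ U, eval R.1 g = 0) → ∀ Q ∈ H, eval Q.1 g = 0)
    (P : A.Pt (AlgebraicClosure K)) {U : Set (A.Pt (AlgebraicClosure K))} (hU : U ∈ 𝓤)
    {g : MvPolynomial (Fin n) (AlgebraicClosure K)} {δ : ℕ} (hg : g.IsHomogeneous δ)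
    (h : ∀ R ∈ U, eval (P + R).1 g = 0) (Q : A.Pt (AlgebraicClosure K)) (hQ : Q ∈ H) :
    eval (P + Q).1 g = 0 := by
  obtain ⟨U1, hU1, hsub⟩ := h𝓤.sub U hU
  have h1 : ∀ i, ∀ Q' ∈ H, eval Q'.1 (dif1 A g P i) = 0 := by
    intro i
    refine hH U1 hU1 _ _ (dif1_hom A hg P i) (fun R hR => ?_)
    rw [dif1_eval]
    refine dif_zero A hg ?_ i
    have h2 := h _ (hsub 0 (h𝓤.zero U1 hU1) R hR)
    rwa [zero_sub, ← sub_eq_add_neg] at h2
  have h3 : eval (P - (-Q)).1 g = 0 := by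
    refine zero_of_dif A hg (fun i => ?_)
    rw [← dif1_eval]
    exact h1 i _ (H.neg_mem hQ)
  rwa [sub_neg_eq_add] at h3

end closure

section near

variable {K : Type} [Field K] {n N : ℕ} {L E : Type} [NontriviallyNormedField L] [ProperSpace L]
  [Field E] [Algebra L E] [FiniteDimensional L E] [TopologicalSpace E] [IsModuleTopology L E]
  [Algebra K E] [Algebra K L] [IsScalarTower K L E]

include L in
lemma cont_aeval (f : MvPolynomial (Fin n) K) : Continuous fun u : Fin n → E => aeval u f := by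
  have := topring L E
  have h : (fun u : Fin n → E => aeval u f) =
      fun u => eval u (MvPolynomial.map (algebraMap K E) f) := by
    funext u
    rw [aeval_def, eval₂_eq_eval_map]
  rw [h]
  exact MvPolynomial.continuous_eval _

theorem near1 {Fam : Finset (Fin N → MvPolynomial (Fin n) K)} {d : ℕ}
    (hFam : ∀ C ∈ Fam, ∀ c, (C c).IsHomogeneous d) (A : AbVar K n) (P : A.Pt E) (y : Fin N → K)
    (hy : Val1 Fam P.1 (fun i => algebraMap K E (y i))) {U : Set (Fin N → L)}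
    (hU : IsOpen U) (h0 : (0 : Fin N → L) ∉ U) {c0 : L}
    (hc0 : (fun i => c0 * algebraMap K L (y i)) ∈ U) :
    ∃ W ∈ 𝓝 (0 : A.Pt E).1, ∀ R : A.Pt E, Nr W R.1 → ∀ y' : Fin N → K,
        Val1 Fam (P + R).1 (fun i => algebraMap K E (y' i)) →
        ∃ c : L, c ≠ 0 ∧ (fun i => c * algebraMap K L (y' i)) ∈ U := by
  have := topring L E
  obtain ⟨C, hC, s, hs, hCs⟩ := hy.exists_ne
  obtain ⟨ℓ, hℓ⟩ := LinearMap.exists_leftInverse_of_injective (Algebra.linearMap L E)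
    (LinearMap.ker_eq_bot.2 (algebraMap L E).injective)
  have hℓ' : ∀ (z : L) (e : E), ℓ (e * algebraMap L E z) = z * ℓ e := by
    intro z e
    rw [mul_comm, ← Algebra.smul_def, map_smul, smul_eq_mul]
  have hℓ1 : ∀ z : L, ℓ (algebraMap L E z) = z := fun z => LinearMap.congr_fun hℓ z
  have hℓc : Continuous ℓ := IsModuleTopology.continuous_of_linearMap ℓ
  set Ψ : (Fin n → E) → (Fin N → L) := fun u i => c0 * ℓ (s⁻¹ * aeval u (C i)) with hΨ
  have hΨc : Continuous Ψ := continuous_pi fun i => continuous_const.mul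
    (hℓc.comp (continuous_const.mul (cont_aeval (L := L) (C i))))
  have hΨ0 : Ψ P.1 = fun i => c0 * algebraMap K L (y i) := by
    funext i
    have h1 : aeval P.1 (C i) = s * algebraMap K E (y i) := congrFun hCs i
    simp only [hΨ]
    rw [h1, inv_mul_cancel_left₀ hs, IsScalarTower.algebraMap_apply K L E, hℓ1]
  have h1 : Ψ ⁻¹' U ∈ 𝓝 P.1 := hΨc.continuousAt.preimage_mem_nhds (by
    rw [hΨ0]
    exact hU.mem_nhds hc0)
  obtain ⟨W1, hW1, W2, hW2, h12⟩ := cont_add (L := L) A P 0 (W := Ψ ⁻¹' U) (by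
    rw [add_zero]
    exact h1)
  refine ⟨W2, hW2, fun R hR y' hy' => ?_⟩
  obtain ⟨t, ht, ht'⟩ := h12 P R ⟨1, one_ne_zero, by
    rw [one_smul]
    exact mem_of_mem_nhds hW1⟩ hR
  have h4 : Ψ (t • (P + R).1) ∈ U := ht'
  obtain ⟨s', hs'⟩ := hy'.1 C hC
  have h5 : Ψ (t • (P + R).1) =
      fun i => (c0 * ℓ (s⁻¹ * (t ^ d * s'))) * algebraMap K L (y' i) := by
    funext i
    have h6 : aeval (P + R).1 (C i) = s' * algebraMap K E (y' i) := congrFun hs' i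
    simp only [hΨ]
    rw [aeval_smul' (hFam C hC i), h6, IsScalarTower.algebraMap_apply K L E, ← mul_assoc (t ^ d),
      ← mul_assoc s⁻¹, hℓ']
    ring
  rw [h5] at h4
  refine ⟨_, ?_, h4⟩
  intro h0'
  apply h0
  have h8 : (fun i => (c0 * ℓ (s⁻¹ * (t ^ d * s'))) * algebraMap K L (y' i)) =
      (0 : Fin N → L) := by
    funext i
    rw [h0', zero_mul]
    rfl
  rw [h8] at h4
  exact h4

end near

end Pool.Agent.K1H82.KQ
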