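import Pool.Agent.K1H82.KM.Rat
import Pool.Agent.K1H82.KM.Alg

/-!
# Quotients of abelian varieties by finite groups: definitions
-/

set_option autoImplicit false

open MvPolynomial Pool.Agent.TH954.X Pool.Agent.K1H82.KM

namespace Pool.Agent.K1H82.KQ

/-- the action of the Galois group on the points over the algebraic closure -/
noncomputable def sg {K : Type} [Field K] {n : ℕ} (A : AbVar K n)
    (σ : AlgebraicClosure K ≃ₐ[K] AlgebraicClosure K) :
    A.Pt (AlgebraicClosure K) →+ A.Pt (AlgebraicClosure K) := mapH A σ.toAlgHom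

/-- The endomorphisms of the abelian variety `A` over the algebraic closure: the ring `R`, an order
in the semisimple algebra `S = R ⊗ ℚ`, which acts on the group of the points, and on which the
Galois group acts through a finite quotient. The torsion subgroups are finite, and every Zariski
closed subgroup agrees with the kernel of an endomorphism up to a positive integer (Poincaré
reducibility). -/
structure EndAlg {K : Type} [Field K] {n : ℕ} (A : AbVar K n) where
  S : Type
  [ring : Ring S]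
  [alg : Algebra ℚ S]
  [fin : Module.Finite ℚ S]
  [semi : IsSemisimpleRing S]
  R : Subring S
  mult : ∀ s : S, ∃ m : ℕ, 0 < m ∧ m • s ∈ R
  act : R →+* AddMonoid.End (A.Pt (AlgebraicClosure K))
  gal : (AlgebraicClosure K ≃ₐ[K] AlgebraicClosure K) →* RingAut S
  gal_fin : (Set.range gal).Finite
  gal_mem : ∀ σ, ∀ s ∈ R, gal σ s ∈ R
  gal_act : ∀ σ (α : R) (P : A.Pt (AlgebraicClosure K)),
    sg A σ (act α P) = act ⟨gal σ α, gal_mem σ α α.2⟩ (sg A σ P)
  tor : ∀ m : ℕ, 0 < m → {P : A.Pt (AlgebraicClosure K) | m • P = 0}.Finite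
  poinc : ∀ Z : Set (MvPolynomial (Fin n) (AlgebraicClosure K)),
    (∀ g ∈ Z, ∃ d, g.IsHomogeneous d) → ∀ H : AddSubgroup (A.Pt (AlgebraicClosure K)),
      (∀ P, P ∈ H ↔ ∀ g ∈ Z, eval P.1 g = 0) →
      ∃ (β : R) (m : ℕ), 0 < m ∧ (∀ P ∈ H, m • act β P = 0) ∧ ∀ P, act β P = 0 → m • P ∈ H

attribute [instance] EndAlg.ring EndAlg.alg EndAlg.fin EndAlg.semi

/-- the tuples of forms in the finite set `Fam` are not all zero at `u`, and their values at `u` are
multiples of `x` -/
def Val1 {K : Type} [Field K] {n N : ℕ} (Fam : Finset (Fin N → MvPolynomial (Fin n) K))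
    {F : Type} [Field F] [Algebra K F] (u : Fin n → F) (x : Fin N → F) : Prop :=
  (∀ C ∈ Fam, ∃ s : F, (fun c => aeval u (C c)) = s • x) ∧ ∃ C ∈ Fam, ∃ c, aeval u (C c) ≠ 0

/-- A projective variety `X ⊆ ℙ ^ (N - 1)` over `K` which is the quotient of the abelian variety `A`
by the group `G` of automorphisms `P ↦ α_g (P) + t_g` (with `α_g` an automorphism of the group
variety and `t_g` a point) of the variety `A` over the algebraic closure, stable under the Galois
group: homogeneous equations `eqX` of `X`, a map given by the tuples of forms in `Fam` from `A` onto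
`X` (`total`, `surj`), whose fibres over the points over the algebraic closure are the orbits of `G`
(`fib`). -/
structure Quot {K : Type} [Field K] {n : ℕ} {A : AbVar K n} (E : EndAlg A) (N : ℕ) (G : Type)
    [Group G] where
  eqX : Set (MvPolynomial (Fin N) K)
  homX : ∀ g ∈ eqX, ∃ d, g.IsHomogeneous d
  Fam : Finset (Fin N → MvPolynomial (Fin n) K)
  d : ℕ
  Fam_hom : ∀ C ∈ Fam, ∀ c, (C c).IsHomogeneous d
  lin : G →* E.R
  tr : G → A.Pt (AlgebraicClosure K)
  tr_mul : ∀ g h, tr (g * h) = E.act (lin g) (tr h) + tr g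
  galG : (AlgebraicClosure K ≃ₐ[K] AlgebraicClosure K) →* MulAut G
  gal_lin : ∀ σ g, (lin (galG σ g) : E.S) = E.gal σ (lin g)
  gal_tr : ∀ σ g, tr (galG σ g) = sg A σ (tr g)
  total : ∀ P : A.Pt (AlgebraicClosure K), ∃ x : Fin N → AlgebraicClosure K, x ≠ 0 ∧
    (∀ g ∈ eqX, aeval x g = 0) ∧ Val1 Fam P.1 x
  surj : ∀ x : Fin N → AlgebraicClosure K, x ≠ 0 → (∀ g ∈ eqX, aeval x g = 0) →
    ∃ P : A.Pt (AlgebraicClosure K), Val1 Fam P.1 x
  fib : ∀ (P Q : A.Pt (AlgebraicClosure K)) (x : Fin N → AlgebraicClosure K),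
    Val1 Fam P.1 x → (Val1 Fam Q.1 x ↔ ∃ g : G, Q = E.act (lin g) P + tr g)

end Pool.Agent.K1H82.KQ
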