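import Pool.Agent.K1H82.KQ.Cls
import Pool.Agent.K1H82.KM.Loc

/-!
# The local Zariski closures
-/

set_option autoImplicit false
set_option linter.unusedSectionVars false

open MvPolynomial Pool.Agent.TH954.X Pool.Agent.K1H82.KM Filter Topology

namespace Pool.Agent.K1H82.KQ

variable {K : Type} [Field K] {n N : ℕ} {A : AbVar K n} {E : EndAlg A} {G : Type} [Group G]

/-- the polynomials which vanish at the images of the points `P + e Q` -/
def ZIe (X : Quot E N G) (P : A.Pt (AlgebraicClosure K)) (e : E.R) :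
    Set (MvPolynomial (Fin N) K) :=
  {f | ∀ (Q : A.Pt (AlgebraicClosure K)) (z : Fin N → AlgebraicClosure K),
    Val1 X.Fam (P + E.act e Q).1 z → ∀ a : AlgebraicClosure K, aeval (a • z) f = 0}

section field

variable {L : Type} [Field L] [Algebra K L]

/-- the field generated by the coordinates over `L` -/
noncomputable def fldL (φ : AlgebraicClosure K →ₐ[K] AlgebraicClosure L)
    (P : A.Pt (AlgebraicClosure K)) : IntermediateField L (AlgebraicClosure L) :=
  IntermediateField.adjoin L (Set.range fun c => φ (P.1 c))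

lemma fldL_fin (φ : AlgebraicClosure K →ₐ[K] AlgebraicClosure L)
    (P : A.Pt (AlgebraicClosure K)) : FiniteDimensional L (fldL φ P) := by
  have : Finite (Set.range fun c => φ (P.1 c)) := Set.finite_range _
  refine IntermediateField.finiteDimensional_adjoin (fun x _ => ?_)
  exact (AlgebraicClosure.isAlgebraic L).isIntegral.isIntegral x

lemma mem_fldL (φ : AlgebraicClosure K →ₐ[K] AlgebraicClosure L)
    (P : A.Pt (AlgebraicClosure K)) {x : AlgebraicClosure K} (hx : x ∈ fld P) :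
    φ x ∈ fldL φ P := by
  have h : fld P ≤ (IntermediateField.restrictScalars K (fldL φ P)).comap φ := by
    unfold fld
    rw [IntermediateField.adjoin_le_iff]
    rintro _ ⟨c, rfl⟩
    exact IntermediateField.subset_adjoin L _ ⟨c, rfl⟩
  exact h hx

lemma exists_pL (φ : AlgebraicClosure K →ₐ[K] AlgebraicClosure L)
    (P R : A.Pt (AlgebraicClosure K)) (hR : ∀ c, R.1 c ∈ fld P) :
    ∃ R' : A.Pt (fldL φ P), mapPt A ((fldL φ P).val.restrictScalars K) R' = mapPt A φ R := by
  refine ⟨⟨fun c => ⟨φ (R.1 c), mem_fldL φ P (hR c)⟩, ?_, fun i => ?_⟩, rfl⟩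
  · obtain ⟨i, hi, hj⟩ := R.2.1
    refine ⟨i, Subtype.ext ?_, fun j hji => Subtype.ext ?_⟩
    · change φ (R.1 i) = 1
      rw [hi, map_one]
    · change φ (R.1 j) = 0
      rw [hj j hji, map_zero]
  · apply ((fldL φ P).val.restrictScalars K).toRingHom.injective
    have h1 := MvPolynomial.comp_aeval_apply
      (f := fun c => (⟨φ (R.1 c), mem_fldL φ P (hR c)⟩ : fldL φ P))
      ((fldL φ P).val.restrictScalars K) (A.eqn i)
    change ((fldL φ P).val.restrictScalars K) _ = ((fldL φ P).val.restrictScalars K) 0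
    rw [h1, map_zero]
    exact (mapPt A φ R).2.2 i

end field

theorem loc1 [NumberField K] (X : Quot E N G) {L : Type}
    [NontriviallyNormedField L] [CompleteSpace L] (σ : K →+* L) (hσ : DenseRange σ)
    (f : MvPolynomial (Fin N) K) {U : Set (Fin N → L)} (hU : IsOpen U) (h0 : (0 : Fin N → L) ∉ U)
    (hf : ∀ y : Fin N → K, y ≠ 0 → (∀ g ∈ X.eqX, eval y g = 0) →
      (∃ c : L, c ≠ 0 ∧ (fun i => c * σ (y i)) ∈ U) → ∀ a : K, eval (a • y) f = 0)
    (P : A.Pt (AlgebraicClosure K)) (y : Fin N → K) (hy : Val1 X.Fam P.1 (up y))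
    {c0 : L} (hc0 : (fun i => c0 * σ (y i)) ∈ U) (e : E.R)
    (he : ∀ β ∈ an X P, β * (e : E.S) = 0) : f ∈ ZIe X P e := by
  have hprop : ProperSpace L := W279.Tri.properSpace_of_denseRange σ hσ
  let _ : Algebra K L := σ.toAlgebra
  let φ : AlgebraicClosure K →ₐ[K] AlgebraicClosure L := IsAlgClosed.lift
  have hfin : FiniteDimensional L (fldL φ P) := fldL_fin φ P
  let _ : TopologicalSpace (fldL φ P) := moduleTopology L (fldL φ P)
  have : IsModuleTopology L (fldL φ P) := ⟨rfl⟩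
  set ψ : fldL φ P →ₐ[K] AlgebraicClosure L := (fldL φ P).val.restrictScalars K with hψ
  obtain ⟨P', hP'⟩ := exists_pL φ P P (mem_fld P)
  have hup : ∀ y : Fin N → K, mapV φ (up y) = mapV ψ (fun i => algebraMap K (fldL φ P) (y i)) := by
    intro y
    funext i
    change φ (algebraMap K (AlgebraicClosure K) (y i)) = ψ (algebraMap K (fldL φ P) (y i))
    rw [AlgHom.commutes, AlgHom.commutes]
  have hval : ∀ (R : A.Pt (AlgebraicClosure K)) (R' : A.Pt (fldL φ P)) (y : Fin N → K),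
      mapPt A ψ R' = mapPt A φ R → Val1 X.Fam R.1 (up y) →
      Val1 X.Fam R'.1 (fun i => algebraMap K (fldL φ P) (y i)) := by
    intro R R' y hR hv
    refine Val1.of_map ψ ?_
    have h1 := hv.map φ
    rw [hup] at h1
    have h2 : mapV φ R.1 = mapV ψ R'.1 := (congrArg Subtype.val hR).symm
    rw [h2] at h1
    exact h1
  obtain ⟨W, hW, hnear⟩ := near1 X.Fam_hom A P' y (hval P P' y hP' hy) hU h0 hc0
  -- the basis of neighbourhoods
  set V : Set (Fin n → fldL φ P) → Set (A.Pt (AlgebraicClosure K)) := fun W =>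
    {R | R ∈ Mo X P ∧ ∃ R' : A.Pt (fldL φ P), mapPt A ψ R' = mapPt A φ R ∧ Nr W R'.1} with hV
  have hmz : mapPt A ψ (0 : A.Pt (fldL φ P)) = mapPt A φ (0 : A.Pt (AlgebraicClosure K)) := by
    change mapH A ψ 0 = mapH A φ 0
    rw [map_zero, map_zero]
  have hms : ∀ (R R2 : A.Pt (AlgebraicClosure K)) (R' R2' : A.Pt (fldL φ P)),
      mapPt A ψ R' = mapPt A φ R → mapPt A ψ R2' = mapPt A φ R2 →
      mapPt A ψ (R' - R2') = mapPt A φ (R - R2) := by
    intro R R2 R' R2' h1 h2
    rw [(map_add_sub A ψ R' R2').2, (map_add_sub A φ R R2).2, h1, h2]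
  have hma : ∀ (R R2 : A.Pt (AlgebraicClosure K)) (R' R2' : A.Pt (fldL φ P)),
      mapPt A ψ R' = mapPt A φ R → mapPt A ψ R2' = mapPt A φ R2 →
      mapPt A ψ (R' + R2') = mapPt A φ (R + R2) := by
    intro R R2 R' R2' h1 h2
    rw [(map_add_sub A ψ R' R2').1, (map_add_sub A φ R R2).1, h1, h2]
  have hbas : IsBasP A {U | ∃ W ∈ 𝓝 (0 : A.Pt (fldL φ P)).1, U = V W} := by
    refine ⟨⟨_, Set.univ, univ_mem, rfl⟩, ?_, ?_, ?_⟩
    · rintro _ ⟨W, hW, rfl⟩
      exact ⟨(Mo X P).zero_mem, 0, hmz, 1, one_ne_zero, by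
        rw [one_smul]
        exact mem_of_mem_nhds hW⟩
    · rintro _ ⟨W, hW, rfl⟩
      obtain ⟨W1, hW1, W2, hW2, h12⟩ := cont_sub (L := L) A 0 0 (W := W) (by rwa [sub_zero])
      refine ⟨_, ⟨W1 ∩ W2, inter_mem hW1 hW2, rfl⟩, ?_⟩
      rintro R ⟨hR, R', hR', hR2⟩ R1 ⟨hR1, R1', hR1', hR12⟩
      exact ⟨(Mo X P).sub_mem hR hR1, R' - R1', hms _ _ _ _ hR' hR1',
        h12 R' R1' (hR2.mono Set.inter_subset_left) (hR12.mono Set.inter_subset_right)⟩
    · rintro _ ⟨W, hW, rfl⟩ _ ⟨W', hW', rfl⟩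
      refine ⟨_, ⟨W ∩ W', inter_mem hW hW', rfl⟩, ?_⟩
      rintro R ⟨hR, R', hR', hR2⟩
      exact ⟨⟨hR, R', hR', hR2.mono Set.inter_subset_left⟩,
        ⟨hR, R', hR', hR2.mono Set.inter_subset_right⟩⟩
  obtain ⟨Z, H, hZ, hHZ, ⟨_, ⟨W0, hW0, rfl⟩, hVH⟩, hHg⟩ := closureP hbas
  -- the image of `e` is in `H`
  have heH : ∀ Q, E.act e Q ∈ H := by
    obtain ⟨β, m, hm, hβ1, hβ2⟩ := E.poinc Z hZ H hHZ
    have hβ : (β : E.S) ∈ an X P := by
      rw [mem_an]
      intro R hR
      obtain ⟨R', hR'⟩ := exists_pL φ P R (fun c => Mo_fld X hR c)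
      obtain ⟨k, hk, hk'⟩ := exists_mult (L := L) A R' hW0
      have h1 : k • R ∈ H := by
        refine hVH ⟨(Mo X P).zsmul_mem hR k, k • R', ?_, hk'⟩
        change mapH A ψ (k • R') = mapH A φ (k • R)
        rw [map_zsmul, map_zsmul, mapH_apply, mapH_apply, hR']
      have h2 := hβ1 _ h1
      rw [map_zsmul] at h2
      refine ⟨m * k.natAbs, Nat.mul_pos hm (Int.natAbs_pos.2 hk), ?_⟩
      rw [mul_smul]
      rcases Int.natAbs_eq k with h3 | h3
      · rw [h3, natCast_zsmul] at h2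
        exact h2
      · rw [h3, neg_smul, natCast_zsmul, smul_neg, neg_eq_zero] at h2
        exact h2
    intro Q
    obtain ⟨Q0, hQ0⟩ := A.div (AlgebraicClosure K) Q m hm
    have h3 : E.act β (E.act e Q0) = 0 := by
      rw [← act_mul]
      have : β * e = 0 := Subtype.ext (he _ hβ)
      rw [this, map_zero]
      rfl
    have h4 := hβ2 _ h3
    rw [← map_nsmul] at h4
    have h5 : m • Q0 = Q := hQ0
    rwa [h5] at h4
  have key : ∀ k, ∀ C ∈ X.Fam, ∀ Q : A.Pt (AlgebraicClosure K),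
      aeval (P + E.act e Q).1 (aeval C (homogeneousComponent k f)) = 0 := by
    intro k C hC Q
    have hhom : (MvPolynomial.map (algebraMap K (AlgebraicClosure K))
        (aeval C (homogeneousComponent k f))).IsHomogeneous (X.d * k) :=
      ((homogeneousComponent_isHomogeneous k f).aeval C (X.Fam_hom C hC)).map _
    have hev : ∀ u : Fin n → AlgebraicClosure K, eval u (MvPolynomial.map
        (algebraMap K (AlgebraicClosure K)) (aeval C (homogeneousComponent k f))) =
        aeval u (aeval C (homogeneousComponent k f)) := by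
      intro u
      rw [aeval_def u, eval₂_eq_eval_map]
    rw [← hev]
    refine closureP_trans hbas hHg P ⟨W, hW, rfl⟩ hhom ?_ _ (heH Q)
    rintro R ⟨hR, R', hR', hRn⟩
    rw [hev]
    obtain ⟨y', hy', hy'e, hy'v⟩ := rat1 X P y hy R hR
    obtain ⟨c, hc, hcU⟩ := hnear R' hRn y' (hval _ _ y' (hma _ _ _ _ hP' hR') hy'v)
    have h2 : eval y' (homogeneousComponent k f) = 0 :=
      hom_comp_zero (hf y' hy'.ne_zero hy'e ⟨c, hc, hcU⟩) k
    obtain ⟨s, hs⟩ := hy'v.1 C hC
    have h3 : aeval (P + R).1 (aeval C (homogeneousComponent k f)) =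
        aeval (fun c => aeval (P + R).1 (C c)) (homogeneousComponent k f) :=
      MvPolynomial.comp_aeval_apply (f := C)
        (aeval (P + R).1 : MvPolynomial (Fin n) K →ₐ[K] AlgebraicClosure K) _
    rw [h3, hs, aeval_smul' (homogeneousComponent_isHomogeneous k f),
      (eval_up_iff y' _).2 h2, mul_zero]
  rintro Q z hz a
  refine aeval_of_comp (fun k => ?_) a
  obtain ⟨C, hC, s, hs, hCs⟩ := hz.exists_ne
  have h1 := key k C hC Q
  have h3 : aeval (P + E.act e Q).1 (aeval C (homogeneousComponent k f)) =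
      aeval (fun c => aeval (P + E.act e Q).1 (C c)) (homogeneousComponent k f) :=
    MvPolynomial.comp_aeval_apply (f := C)
      (aeval (P + E.act e Q).1 : MvPolynomial (Fin n) K →ₐ[K] AlgebraicClosure K) _
  rw [h3, hCs, aeval_smul' (homogeneousComponent_isHomogeneous k f)] at h1
  exact (mul_eq_zero.1 h1).resolve_left (pow_ne_zero _ hs)

end Pool.Agent.K1H82.KQ
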