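import Mathlib

/-!
# Algebraic numbers of bounded degree and height in a field of characteristic zero
-/

set_option autoImplicit false
set_option linter.unusedSectionVars false

open Polynomial NumberField Height Module

namespace Pool.Agent.K1H82.KQ

lemma infPlace_le {E : Type} [Field E] [NumberField E] (x : E)
    (v : InfinitePlace E) : v x ≤ mulHeight₁ x := by
  classical
  rw [NumberField.mulHeight₁_eq]
  have h1 : (1 : ℝ) ≤ ∏ᶠ v : FinitePlace E, max (v x) 1 := one_le_finprod fun _ => le_max_right _ _
  have h2 : max (v x) 1 ≤ ∏ w : InfinitePlace E, max (w x) 1 ^ w.mult := by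
    calc max (v x) 1 = ∏ w : InfinitePlace E, (if w = v then max (v x) 1 else 1) := by
          rw [Finset.prod_ite_eq']; simp
      _ ≤ _ := by
          apply Finset.prod_le_prod
          · intro w _
            split_ifs
            · positivity
            · exact zero_le_one
          · intro w _
            split_ifs with h
            · subst h
              exact le_self_pow₀ (le_max_right _ _) (InfinitePlace.mult_ne_zero)
            · exact one_le_pow₀ (le_max_right _ _)
  calc v x ≤ max (v x) 1 := le_max_left _ _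
    _ ≤ (∏ w : InfinitePlace E, max (w x) 1 ^ w.mult) * 1 := by rw [mul_one]; exact h2
    _ ≤ _ := by
        apply mul_le_mul_of_nonneg_left h1
        exact le_trans zero_le_one ((le_max_right (v x) 1).trans h2)

lemma emb_le {E : Type} [Field E] [NumberField E] (x : E)
    (φ : E →+* ℂ) : ‖φ x‖ ≤ mulHeight₁ x := by
  have := infPlace_le x (InfinitePlace.mk φ)
  rwa [InfinitePlace.apply] at this

theorem north_alg (Ω : Type) [Field Ω] [CharZero Ω] (D : ℕ) (M : ℝ) :
    {α : Ω | ∃ (E : Type) (_ : Field E) (_ : NumberField E) (ψ : E →+* Ω) (x : E), ψ x = α ∧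
      finrank ℚ E ≤ D ∧ mulHeight₁ x ≤ M}.Finite := by
  classical
  have hfin := Polynomial.finite_mahlerMeasure_le D
    (⟨(max 1 (M * M)) ^ D, by positivity⟩ : NNReal)
  have hfin1 : (⋃ p ∈ {p : ℤ[X] | p.natDegree ≤ D ∧
      (p.map (Int.castRingHom ℂ)).mahlerMeasure ≤ (⟨(max 1 (M * M)) ^ D, by positivity⟩ : NNReal)},
      ((p.map (algebraMap ℤ Ω)).roots.toFinset : Set Ω)).Finite := by
    apply hfin.biUnion
    intro p _
    exact Finset.finite_toSet _
  have hfin2 : (⋃ n ∈ Finset.Icc 1 ⌊M⌋₊, {α : Ω | (n : Ω) * α ∈ (⋃ p ∈ {p : ℤ[X] |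
      p.natDegree ≤ D ∧ (p.map (Int.castRingHom ℂ)).mahlerMeasure ≤
        (⟨(max 1 (M * M)) ^ D, by positivity⟩ : NNReal)},
      ((p.map (algebraMap ℤ Ω)).roots.toFinset : Set Ω))}).Finite := by
    apply (Finset.finite_toSet _).biUnion
    intro n hn
    have hn1 : 1 ≤ n := (Finset.mem_Icc.mp hn).1
    apply hfin1.preimage
    intro a _ b _ hab
    have h0 : (n : Ω) ≠ 0 := by
      have : n ≠ 0 := by omega
      exact_mod_cast this
    exact mul_left_cancel₀ h0 hab
  refine hfin2.subset ?_
  rintro α ⟨E, _, _, ψ, x, rfl, hdeg, hmul⟩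
  obtain ⟨n, hn0, hn1, hn2⟩ := exists_nat_le_mulHeight₁ x
  simp only [Set.mem_iUnion]
  refine ⟨n, ?_, ?_⟩
  · rw [Finset.mem_Icc]
    exact ⟨Nat.one_le_iff_ne_zero.mpr hn0, Nat.le_floor (hn1.trans hmul)⟩
  · simp only [Set.mem_ofPred_eq, Set.mem_iUnion]
    have hmp : (minpoly ℤ ((n : E) * x)).map (algebraMap ℤ ℚ) = minpoly ℚ ((n : E) * x) :=
      (minpoly.isIntegrallyClosed_eq_field_fractions' ℚ hn2).symm
    have hdeg2 : (minpoly ℤ ((n : E) * x)).natDegree ≤ D := by
      have h1 : (minpoly ℤ ((n : E) * x)).natDegree = (minpoly ℚ ((n : E) * x)).natDegree := by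
        rw [← hmp, (minpoly.monic hn2).natDegree_map]
      rw [h1]
      exact (minpoly.natDegree_le ((n : E) * x)).trans hdeg
    refine ⟨minpoly ℤ ((n : E) * x), ⟨hdeg2, ?_⟩, ?_⟩
    · rw [mahlerMeasure_eq_leadingCoeff_mul_prod_roots]
      have hmon : ((minpoly ℤ ((n : E) * x)).map (Int.castRingHom ℂ)).Monic :=
        (minpoly.monic hn2).map _
      rw [hmon.leadingCoeff, norm_one, one_mul]
      have hcard : Multiset.card ((minpoly ℤ ((n : E) * x)).map (Int.castRingHom ℂ)).roots ≤ D := by
        refine (card_roots' _).trans ?_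
        rw [(minpoly.monic hn2).natDegree_map]
        exact hdeg2
      have hroots : ∀ z ∈ ((minpoly ℤ ((n : E) * x)).map (Int.castRingHom ℂ)).roots,
          ‖z‖ ≤ M * M := by
        intro z hz
        have hz2 : z ∈ (minpoly ℚ ((n : E) * x)).rootSet ℂ := by
          rw [← hmp, mem_rootSet]
          constructor
          · exact ((minpoly.monic hn2).map _).ne_zero
          · have hz3 := (mem_roots'.mp hz).2
            rw [IsRoot.def, eval_map] at hz3
            rw [aeval_map_algebraMap, aeval_def]
            exact hz3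
        rw [← NumberField.Embeddings.range_eval_eq_rootSet_minpoly E ℂ] at hz2
        obtain ⟨φ, hφ⟩ := hz2
        simp only at hφ
        rw [← hφ, map_mul, map_natCast, norm_mul, Complex.norm_natCast]
        have hM0 : (0 : ℝ) ≤ M := (mulHeight₁_nonneg x).trans hmul
        exact mul_le_mul (hn1.trans hmul) ((emb_le x φ).trans hmul) (norm_nonneg _) hM0
      show _ ≤ (max 1 (M * M)) ^ D
      calc (((minpoly ℤ ((n : E) * x)).map (Int.castRingHom ℂ)).roots.map
            fun a => max 1 ‖a‖).prod
          ≤ (((minpoly ℤ ((n : E) * x)).map (Int.castRingHom ℂ)).roots.map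
            fun _ => max 1 (M * M)).prod := by
            apply Multiset.prod_map_le_prod_map₀
            · intro i _; positivity
            · intro i hi
              exact max_le_max le_rfl (hroots i hi)
        _ = (max 1 (M * M)) ^ Multiset.card
            ((minpoly ℤ ((n : E) * x)).map (Int.castRingHom ℂ)).roots := by simp
        _ ≤ _ := pow_le_pow_right₀ (le_max_left _ _) hcard
    · simp only [Finset.mem_coe, Multiset.mem_toFinset]
      rw [mem_roots]
      · rw [IsRoot.def, eval_map_algebraMap]
        have h1 : (n : Ω) * ψ x = ψ ((n : E) * x) := by rw [map_mul, map_natCast]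
        rw [h1]
        have h2 : aeval (ψ ((n : E) * x)) (minpoly ℤ ((n : E) * x)) =
            ψ (aeval ((n : E) * x) (minpoly ℤ ((n : E) * x))) := by
          rw [aeval_def, aeval_def, hom_eval₂]
          congr 1
          exact RingHom.ext_int _ _
        rw [h2, minpoly.aeval, map_zero]
      · have : (minpoly ℤ ((n : E) * x)).map (algebraMap ℤ Ω) ≠ 0 :=
          ((minpoly.monic hn2).map _).ne_zero
        exact this

end Pool.Agent.K1H82.KQ
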