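import Pool.Agent.K1H82.KQ.Gen
import Pool.Agent.K1H82.KQ.Nor
import Pool.Agent.K1H82.KM.Tor

/-!
# Torsion points with few conjugates
-/

set_option autoImplicit false
set_option linter.unusedSectionVars false

open MvPolynomial Pool.Agent.TH954.X Pool.Agent.K1H82.KM NumberField Height

namespace Pool.Agent.K1H82.KQ

variable {K : Type} [Field K] {n : ℕ}

/-- an embedding of a subfield extends to an automorphism -/
lemma exists_ext [CharZero K] (E : IntermediateField K (AlgebraicClosure K))
    (ψ : E →ₐ[K] AlgebraicClosure K) : ∃ σ : AlgebraicClosure K ≃ₐ[K] AlgebraicClosure K,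
      ∀ x : E, σ (x : AlgebraicClosure K) = ψ x := by
  have hb : Function.Bijective (ψ.liftNormal (AlgebraicClosure K)) :=
    Algebra.IsAlgebraic.algHom_bijective _
  refine ⟨AlgEquiv.ofBijective _ hb, fun x => ?_⟩
  exact AlgHom.liftNormal_commutes ψ (AlgebraicClosure K) x

/-- the field generated by the coordinates -/
noncomputable def fld {A : AbVar K n} (T : A.Pt (AlgebraicClosure K)) :
    IntermediateField K (AlgebraicClosure K) := IntermediateField.adjoin K (Set.range T.1)

lemma fld_fin {A : AbVar K n} (T : A.Pt (AlgebraicClosure K)) : FiniteDimensional K (fld T) := by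
  have : Finite (Set.range T.1) := Set.finite_range _
  refine IntermediateField.finiteDimensional_adjoin (fun x _ => ?_)
  exact (AlgebraicClosure.isAlgebraic K).isIntegral.isIntegral x

lemma mem_fld {A : AbVar K n} (T : A.Pt (AlgebraicClosure K)) (c : Fin n) : T.1 c ∈ fld T :=
  IntermediateField.subset_adjoin K _ ⟨c, rfl⟩

/-- a point as a point over a subfield -/
noncomputable def down {A : AbVar K n} (T : A.Pt (AlgebraicClosure K))
    (E : IntermediateField K (AlgebraicClosure K)) (h : ∀ c, T.1 c ∈ E) : A.Pt E :=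
  ⟨fun c => ⟨T.1 c, h c⟩, by
    obtain ⟨i, hi, hj⟩ := T.2.1
    exact ⟨i, Subtype.ext hi, fun j hji => Subtype.ext (hj j hji)⟩, fun i => by
    apply E.val.toRingHom.injective
    have h1 := MvPolynomial.comp_aeval_apply (f := fun c => (⟨T.1 c, h c⟩ : E)) E.val (A.eqn i)
    change E.val _ = E.val 0
    rw [h1, map_zero]
    exact T.2.2 i⟩

lemma down_map {A : AbVar K n} (T : A.Pt (AlgebraicClosure K))
    (E : IntermediateField K (AlgebraicClosure K)) (h : ∀ c, T.1 c ∈ E) :
    mapPt A E.val (down T E h) = T := rfl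

theorem torB [NumberField K] (A : AbVar K n) (d : ℕ) :
    {T : A.Pt (AlgebraicClosure K) | (∃ k : ℕ, 0 < k ∧ k • T = 0) ∧
      ∃ s : Finset (A.Pt (AlgebraicClosure K)), s.card ≤ d ∧ ∀ σ, sg A σ T ∈ s}.Finite := by
  classical
  obtain ⟨C, hC, hC'⟩ := tors_ht A
  set D : ℕ := Module.finrank ℚ K * d with hD
  have hf := north_alg (AlgebraicClosure K) D (Real.exp (C * D))
  refine ((Set.Finite.pi (fun _ : Fin n => hf)).preimage
    (Subtype.val_injective.injOn (s := _))).subset ?_
  rintro T ⟨⟨k, hk, hkT⟩, s, hs, hsT⟩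
  rw [Set.mem_preimage, Set.mem_pi]
  intro c _
  have hfin := fld_fin T
  have hNF : NumberField (fld T) := NumberField.of_module_finite K (fld T)
  set T' : A.Pt (fld T) := down T (fld T) (mem_fld T) with hT'
  have hdeg : Module.finrank K (fld T) ≤ d := by
    rw [← AlgHom.card K (fld T) (AlgebraicClosure K)]
    refine le_trans ?_ hs
    have hmem : ∀ ψ : fld T →ₐ[K] AlgebraicClosure K, mapPt A ψ T' ∈ s := by
      intro ψ
      obtain ⟨σ, hσ⟩ := exists_ext (fld T) ψ
      have h1 : sg A σ T = mapPt A ψ T' := by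
        apply Subtype.ext
        funext c
        exact hσ ⟨T.1 c, mem_fld T c⟩
      rw [← h1]
      exact hsT σ
    have hinj : Function.Injective (fun ψ : fld T →ₐ[K] AlgebraicClosure K =>
        (⟨mapPt A ψ T', hmem ψ⟩ : s)) := by
      intro ψ ψ' h
      have h1 : mapPt A ψ T' = mapPt A ψ' T' := congrArg Subtype.val h
      refine IntermediateField.algHom_ext_of_eq_adjoin (S := fld T) (s := Set.range T.1)
        K rfl ?_
      rintro _ ⟨c, rfl⟩
      exact congrArg (fun R : A.Pt (AlgebraicClosure K) => R.1 c) h1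
    have h2 := Fintype.card_le_of_injective _ hinj
    rwa [Fintype.card_coe] at h2
  have hdegQ : Module.finrank ℚ (fld T) ≤ D := by
    rw [← Module.finrank_mul_finrank ℚ K (fld T)]
    exact Nat.mul_le_mul_left _ hdeg
  refine ⟨fld T, inferInstance, hNF, (fld T).val.toRingHom, T'.1 c, rfl, hdegQ, ?_⟩
  obtain ⟨i, hi, -⟩ := T'.2.1
  have h3 : logHeight T'.1 ≤ C * Module.finrank ℚ (fld T) := by
    refine hC' (fld T) T' (k : ℤ) (by exact_mod_cast hk.ne') ?_
    apply mapPt_inj A (fld T).val
    change mapH A (fld T).val ((k : ℤ) • T') = mapH A (fld T).val 0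
    rw [map_zsmul, map_zero, mapH_apply, natCast_zsmul]
    exact hkT
  rw [mulHeight₁_eq_mulHeight]
  have h4 : ![T'.1 c, 1] = T'.1 ∘ ![c, i] := by
    funext j
    fin_cases j
    · rfl
    · exact hi.symm
  rw [h4]
  refine (mulHeight_comp_le _ _).trans ?_
  rw [logHeight_eq_log_mulHeight] at h3
  refine (Real.log_le_iff_le_exp (mulHeight_pos T'.1)).1 (h3.trans ?_)
  exact mul_le_mul_of_nonneg_left (by exact_mod_cast hdegQ) hC

end Pool.Agent.K1H82.KQ
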